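import Pool.Agent.H10.ALG.Targets

/-!
# MP_64fb07_lc: row `COB` of the board `alg_modules`
-/

set_option autoImplicit false

namespace Pool.Agent.H26.ALG

open Pool.Agent.H10.ALG

theorem core (hENT : T_ENT) (B : Type) [DecidableEq B] (E : Finset B) (F : Finset (Finset B))
    (T : ℕ) (hF : ∀ a ∈ F, a ⊆ E) (h : 2 ^ E.card ≤ 2 ^ T * F.card) (g : B → ℕ)
    (hg : ∀ i ∈ E, g i = (F.filter fun a => i ∉ a).card) :
    (E.filter fun i => 10 * g i < F.card ∨ 10 * (F.card - g i) < F.card).card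
      ≤ 10 * (T + 1) := by
  obtain ⟨h1, h2⟩ := hENT B E F T hF h
  have hsub : (E.filter fun i => 10 * g i < F.card ∨ 10 * (F.card - g i) < F.card) ⊆
      (E.filter fun i => 10 * (F.filter fun a => i ∈ a).card < F.card) ∪
        (E.filter fun i => 10 * (F.filter fun a => i ∉ a).card < F.card) := by
    intro i hi
    rw [Finset.mem_filter] at hi
    obtain ⟨hiE, hi2⟩ := hi
    rw [Finset.mem_union, Finset.mem_filter, Finset.mem_filter]
    have hc := Finset.card_filter_add_card_filter_not (s := F) (fun a => i ∈ a)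
    rw [hg i hiE] at hi2
    rcases hi2 with h3 | h3
    · exact Or.inr ⟨hiE, h3⟩
    · refine Or.inl ⟨hiE, ?_⟩
      omega
  have h3 := Finset.card_le_card hsub
  have h4 := Finset.card_union_le
    (E.filter fun i => 10 * (F.filter fun a => i ∈ a).card < F.card)
    (E.filter fun i => 10 * (F.filter fun a => i ∉ a).card < F.card)
  omega

theorem num (a b s Y d e T : ℕ) (hde : d + e = Y) (hb : b ≤ 2 ^ e) (hs : s ≤ Y)
    (h : 2 ^ d ≤ 2 ^ T * a → s ≤ 10 * (T + 1)) :
    (a * b * s : ℝ) ≤ 10 * (T + 1) * (a * b : ℝ) + (Y : ℝ) * 2 ^ Y * (1 / 2) ^ T := by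
  have hp : (0 : ℝ) ≤ (Y : ℝ) * 2 ^ Y * (1 / 2) ^ T := by positivity
  by_cases hc : 2 ^ d ≤ 2 ^ T * a
  · have h1 : (s : ℝ) ≤ 10 * (T + 1) := by exact_mod_cast h hc
    have h2 : (0 : ℝ) ≤ (a : ℝ) * b := by positivity
    nlinarith [mul_le_mul_of_nonneg_left h1 h2]
  · have hc' : 2 ^ T * a ≤ 2 ^ d := by omega
    have h1 : (2 : ℝ) ^ T * a ≤ 2 ^ d := by exact_mod_cast hc'
    have h2 : (a : ℝ) ≤ 2 ^ d * (1 / 2) ^ T := by
      have h3 : ((2 : ℝ) ^ T * a) * (1 / 2) ^ T ≤ 2 ^ d * (1 / 2) ^ T :=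
        mul_le_mul_of_nonneg_right h1 (by positivity)
      have h4 : ((2 : ℝ) ^ T * a) * (1 / 2) ^ T = a := by
        have h5 : (2 : ℝ) ^ T * (1 / 2) ^ T = 1 := by
          rw [← mul_pow]
          norm_num
        calc ((2 : ℝ) ^ T * a) * (1 / 2) ^ T = ((2 : ℝ) ^ T * (1 / 2) ^ T) * a := by ring
          _ = a := by rw [h5, one_mul]
      rwa [h4] at h3
    have hb' : (b : ℝ) ≤ 2 ^ e := by exact_mod_cast hb
    have hs' : (s : ℝ) ≤ Y := by exact_mod_cast hs
    have h3 : (a : ℝ) * b ≤ 2 ^ d * (1 / 2) ^ T * 2 ^ e :=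
      mul_le_mul h2 hb' (by positivity) (by positivity)
    have h4 : (a : ℝ) * b * s ≤ 2 ^ d * (1 / 2) ^ T * 2 ^ e * Y :=
      mul_le_mul h3 hs' (by positivity) (by positivity)
    have h5 : (2 : ℝ) ^ d * (1 / 2) ^ T * 2 ^ e * Y = (Y : ℝ) * 2 ^ Y * (1 / 2) ^ T := by
      rw [← hde, pow_add]
      push_cast
      ring
    have h6 : (0 : ℝ) ≤ 10 * (T + 1) * (a * b : ℝ) := by positivity
    linarith

theorem pow_bound (B : Type) [DecidableEq B] (E : Finset B) (F : Finset (Finset B))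
    (hF : ∀ a ∈ F, a ⊆ E) : F.card ≤ 2 ^ E.card := by
  have h : F ⊆ E.powerset := fun a ha => Finset.mem_powerset.2 (hF a ha)
  have h2 := Finset.card_le_card h
  rwa [Finset.card_powerset] at h2

theorem sum_bound {B : Type} [Fintype B] [DecidableEq B] (u v : Finset B → ℝ) (t c : ℝ)
    (Y : ℕ) (hY : Y = Fintype.card B)
    (h : ∀ D, u D ≤ t * v D + (Y : ℝ) * 2 ^ Y * c) :
    (∑ D : Finset B, u D) ≤ t * (∑ D : Finset B, v D) + (Y : ℝ) * 4 ^ Y * c := by
  have h1 : (∑ D : Finset B, u D) ≤ ∑ D : Finset B, (t * v D + (Y : ℝ) * 2 ^ Y * c) :=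
    Finset.sum_le_sum fun D _ => h D
  refine h1.trans (le_of_eq ?_)
  rw [Finset.sum_add_distrib, ← Finset.mul_sum, Finset.sum_const, Finset.card_univ,
    Fintype.card_finset, ← hY, nsmul_eq_mul]
  have h4 : (4 : ℝ) ^ Y = 2 ^ Y * 2 ^ Y := by
    rw [← mul_pow]
    norm_num
  rw [h4]
  push_cast
  ring

theorem pf_COB (hENT : T_ENT) : T_COB := by
  intro B _ _ A A' T
  have hD : ∀ D : Finset B, D.card + Dᶜ.card = Fintype.card B := fun D =>
    Finset.card_add_card_compl D
  have hinn : ∀ D : Finset B, inn A D ≤ 2 ^ D.card := fun D =>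
    pow_bound B D _ fun a ha => (Finset.mem_filter.1 ha).2
  have hdsub : ∀ D : Finset B, ∀ a ∈ A'.filter (fun a => Disjoint a D), a ⊆ Dᶜ := by
    intro D a ha
    have h := (Finset.mem_filter.1 ha).2
    exact Finset.subset_compl_iff_disjoint_right.2 h
  have hdsj : ∀ D : Finset B, dsj A' D ≤ 2 ^ Dᶜ.card := fun D => pow_bound B Dᶜ _ (hdsub D)
  constructor
  · refine sum_bound _ _ _ _ _ rfl fun D => ?_
    have hs : (D.filter fun i => 10 * inn A (D.erase i) < inn A D ∨
      10 * (inn A D - inn A (D.erase i)) < inn A D).card ≤ Fintype.card B :=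
      (Finset.card_filter_le _ _).trans (Finset.card_le_univ D)
    refine num (inn A D) (dsj A' D) _ (Fintype.card B) D.card Dᶜ.card T (hD D) (hdsj D) hs ?_
    intro hc
    refine core hENT B D (A.filter fun a => a ⊆ D) T (fun a ha => (Finset.mem_filter.1 ha).2)
      hc (fun i => inn A (D.erase i)) ?_
    intro i hi
    rw [inn, Finset.filter_filter]
    refine congrArg Finset.card (Finset.filter_congr fun a _ => ?_)
    rw [Finset.subset_erase]
  · refine sum_bound _ _ _ _ _ rfl fun D => ?_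
    have hs : (Dᶜ.filter fun i => 10 * dsj A' (insert i D) < dsj A' D ∨
      10 * (dsj A' D - dsj A' (insert i D)) < dsj A' D).card ≤ Fintype.card B :=
      (Finset.card_filter_le _ _).trans (Finset.card_le_univ _)
    have hfin := num (dsj A' D) (inn A D) _ (Fintype.card B) Dᶜ.card D.card T
      (by rw [add_comm]; exact hD D) (hinn D) hs ?_
    · calc (inn A D * dsj A' D * ((Dᶜ.filter fun i => 10 * dsj A' (insert i D) < dsj A' D ∨
            10 * (dsj A' D - dsj A' (insert i D)) < dsj A' D).card : ℝ) : ℝ)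
          = (dsj A' D * inn A D * ((Dᶜ.filter fun i => 10 * dsj A' (insert i D) < dsj A' D ∨
            10 * (dsj A' D - dsj A' (insert i D)) < dsj A' D).card : ℝ) : ℝ) := by ring
        _ ≤ 10 * (T + 1) * (dsj A' D * inn A D : ℝ)
            + (Fintype.card B : ℝ) * 2 ^ Fintype.card B * (1 / 2) ^ T := hfin
        _ = _ := by ring
    intro hc
    refine core hENT B Dᶜ (A'.filter fun a => Disjoint a D) T (hdsub D)
      hc (fun i => dsj A' (insert i D)) ?_
    intro i hi
    rw [dsj, Finset.filter_filter]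
    refine congrArg Finset.card (Finset.filter_congr fun a _ => ?_)
    rw [Finset.disjoint_insert_right, and_comm]

end Pool.Agent.H26.ALG
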